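import Pool.Agent.Helper13.HE.St

/-!
# Project HE (MP_a1f43d_co), module LAM: pairs collinear with a heavy point
-/

set_option autoImplicit false

open Module Classical
open scoped LinearAlgebra.Projectivization

namespace Pool.Agent.Helper32.HE

open Pool.Agent.Helper13.HE Pool.Agent.Helper53.PB

universe u v

section aux

variable {F : Type u} [Field F] {V : Type v} [AddCommGroup V] [Module F V]

private theorem polar_comb (Q : QuadraticForm F V) (x y : V) (a b c d : F)
    (hx : Q x = 0) (hy : Q y = 0) (hxy : QuadraticMap.polar Q x y = 0) :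
    QuadraticMap.polar Q (a • x + b • y) (c • x + d • y) = 0 := by
  have h1 : QuadraticMap.polar Q x x = 0 := by
    rw [QuadraticMap.polar_self, hx, smul_zero]
  have h2 : QuadraticMap.polar Q y y = 0 := by
    rw [QuadraticMap.polar_self, hy, smul_zero]
  have h3 : QuadraticMap.polar Q y x = 0 := by
    rw [QuadraticMap.polar_comm, hxy]
  simp only [QuadraticMap.polar_add_left, QuadraticMap.polar_add_right, QuadraticMap.polar_smul_left,
    QuadraticMap.polar_smul_right, h1, h2, h3, hxy, smul_zero, add_zero]

private theorem line_comm (P R : ℙ F V) : line P R = line R P := by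
  unfold line
  exact sup_comm _ _

/-- a singular point on a line through two other singular points -/
private theorem perp_of_mem (Q : QuadraticForm F V) (P X R : ℙ F V) (hP : Q P.rep = 0) (hX : Q X.rep = 0)
    (hR : Q R.rep = 0) (hRP : R ≠ P) (hRX : R ≠ X) (h : R.rep ∈ line P X) :
    QuadraticMap.polar Q P.rep X.rep = 0 := by
  obtain ⟨a, b, hab⟩ := mem_line.1 h
  have ha : a ≠ 0 := by
    rintro rfl
    apply hRX
    apply eq_of_rep_mem_span
    rw [zero_smul, zero_add] at hab
    exact Submodule.mem_span_singleton.2 ⟨b, hab⟩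
  have hb : b ≠ 0 := by
    rintro rfl
    apply hRP
    apply eq_of_rep_mem_span
    rw [zero_smul, add_zero] at hab
    exact Submodule.mem_span_singleton.2 ⟨a, hab⟩
  rw [← hab, QuadraticMap.map_add Q, QuadraticMap.map_smul, QuadraticMap.map_smul, hP, hX,
    QuadraticMap.polar_smul_left, QuadraticMap.polar_smul_right, smul_zero, smul_zero, zero_add, zero_add,
    smul_eq_mul, smul_eq_mul] at hR
  rcases mul_eq_zero.1 hR with h1 | h1
  · exact absurd h1 ha
  · rcases mul_eq_zero.1 h1 with h2 | h2
    · exact absurd h2 hb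
    · exact h2

end aux

theorem hLAM (hCLQ : StCLQ.{u, v}) : StLAM.{u, v} := by
  intro F _ _ V _ _ _ Q T H m h j c R hR
  have hRT := c.dis R hR
  have hQR := c.sH R hR
  set T' := T.filter (fun P => QuadraticMap.polar Q R.rep P.rep = 0) with hT'
  -- the pairs, by the first point
  have h1 : lam T R ≤ ∑ P ∈ T', mass H m (line P R) := by
    have e1 : lam T R = ∑ P ∈ T, (T.filter (fun X => P ≠ X ∧ R.rep ∈ line P X)).card := by
      unfold lam
      rw [Finset.card_filter, Finset.sum_product]
      refine Finset.sum_congr rfl fun P _ => ?_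
      rw [Finset.card_filter]
    rw [e1, hT', Finset.sum_filter]
    refine Finset.sum_le_sum fun P hP => ?_
    have hRP : R ≠ P := fun e => hRT (e ▸ hP)
    have key : ∀ X ∈ T, P ≠ X → R.rep ∈ line P X →
        QuadraticMap.polar Q R.rep P.rep = 0 ∧ X.rep ∈ line P R := by
      intro X hX hPX hl
      have hRX : R ≠ X := fun e => hRT (e ▸ hX)
      have hb := perp_of_mem Q P X R (c.sT P hP) (c.sT X hX) hQR hRP hRX hl
      constructor
      · obtain ⟨a, b, hab⟩ := mem_line.1 hl
        have := polar_comb Q P.rep X.rep a b 1 0 (c.sT P hP) (c.sT X hX) hb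
        rwa [hab, one_smul, zero_smul, add_zero] at this
      · rw [line_eq hPX hl hRP]
        exact right_mem_line _ _
    split_ifs with hb
    · have h2 := c.ln P hP R hRP hQR (by rw [QuadraticMap.polar_comm]; exact hb)
      have h3 : (T.filter (fun X => P ≠ X ∧ R.rep ∈ line P X)) ⊆
          (T.filter (fun y => y.rep ∈ line P R)).erase P := by
        intro X hX
        rw [Finset.mem_filter] at hX
        rw [Finset.mem_erase, Finset.mem_filter]
        exact ⟨Ne.symm hX.2.1, hX.1, (key X hX.1 hX.2.1 hX.2.2).2⟩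
      have h4 := Finset.card_le_card h3
      rw [Finset.card_erase_of_mem (Finset.mem_filter.2 ⟨hP, left_mem_line _ _⟩)] at h4
      change _ ≤ tt T (line P R) - 1 at h4
      omega
    · rw [Nat.le_zero, Finset.card_eq_zero, Finset.filter_eq_empty_iff]
      rintro X hX ⟨h2, h3⟩
      exact hb (key X hX h2 h3).1
  -- exchange
  have h2 : ∑ P ∈ T', mass H m (line P R) =
      ∑ R' ∈ H, m R' * (T'.filter (fun P => R'.rep ∈ line P R)).card := by
    unfold mass
    simp_rw [Finset.sum_filter, Finset.card_filter, Finset.mul_sum]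
    rw [Finset.sum_comm]
    refine Finset.sum_congr rfl fun R' _ => Finset.sum_congr rfl fun P _ => ?_
    split_ifs <;> simp
  have h3 : (T'.filter (fun P => R.rep ∈ line P R)).card ≤ (1 + m R) * Nat.card F ^ 3 + 1 + j :=
    (Finset.card_filter_le _ _).trans (c.up R hR)
  have h4 : ∀ R' ∈ H.erase R, m R' * (T'.filter (fun P => R'.rep ∈ line P R)).card ≤ m R' * (1 + j) := by
    intro R' hR'
    obtain ⟨hne, hR'H⟩ := Finset.mem_erase.1 hR'
    refine Nat.mul_le_mul_left _ ?_
    rcases (T'.filter (fun P => R'.rep ∈ line P R)).eq_empty_or_nonempty with h5 | ⟨P0, hP0⟩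
    · rw [h5, Finset.card_empty]
      exact Nat.zero_le _
    · rw [Finset.mem_filter, hT', Finset.mem_filter] at hP0
      obtain ⟨⟨hP0T, hP0b⟩, hP0l⟩ := hP0
      have hb : QuadraticMap.polar Q R.rep R'.rep = 0 := by
        obtain ⟨a, b, hab⟩ := mem_line.1 hP0l
        have := polar_comb Q P0.rep R.rep 0 1 a b (c.sT P0 hP0T) hQR
          (by rw [QuadraticMap.polar_comm]; exact hP0b)
        rwa [hab, one_smul, zero_smul, zero_add] at this
      have h6 := (hCLQ F V Q T H m h j c).1 (line R R') (by
        intro P _ hPl X _ hXl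
        obtain ⟨a, b, hab⟩ := mem_line.1 hPl
        obtain ⟨a', b', hab'⟩ := mem_line.1 hXl
        rw [← hab, ← hab']
        exact polar_comb Q R.rep R'.rep a b a' b' hQR (c.sH R' hR'H) hb)
      refine le_trans (Finset.card_le_card ?_) h6
      intro P hP
      rw [Finset.mem_filter, hT', Finset.mem_filter] at hP
      obtain ⟨⟨hPT, _⟩, hPl⟩ := hP
      rw [Finset.mem_filter]
      refine ⟨hPT, ?_⟩
      have hPR : P ≠ R := fun e => hRT (e ▸ hPT)
      rw [line_comm P R] at hPl
      exact (mem_line_comm hPR hne).1 hPl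
  have h5 : ∑ R' ∈ H.erase R, m R' + m R = j := by
    rw [Finset.sum_erase_add _ _ hR]
    exact c.ms
  have h6 := Finset.sum_le_sum h4
  rw [← Finset.sum_mul] at h6
  have h7 := Nat.mul_le_mul_left (m R) h3
  refine h1.trans ?_
  rw [h2, ← Finset.sum_erase_add _ _ hR]
  refine (Nat.add_le_add h6 h7).trans (le_of_eq ?_)
  set S := ∑ R' ∈ H.erase R, m R'
  have h8 : j * (1 + j) = S * (1 + j) + m R * (1 + j) := by
    rw [← add_mul, h5]
  rw [h8]
  ring

end Pool.Agent.Helper32.HE
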